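import Pool.Agent.Helper70.DGL.Fr
import Pool.Agent.Helper59.DGL.Tr
import Pool.Agent.Helper68.DG.A3
import Pool.Agent.Helper68.DG.B2

/-! Project DGL (MP_800410_an), piece FC: the number of places with a large defect -/

set_option autoImplicit false

open MeasureTheory Metric Set Filter Topology
open scoped ContDiff

namespace Pool.Agent.Helper69.DGL

open Pool.Agent.Helper68.DG Pool.Agent.Helper70.DGL Pool.Agent.Helper59.DGL

variable {ι : Type} [Fintype ι]

/-- at most one of the summands is not zero -/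
theorem norm_sum_sq {E α : Type*} [NormedAddCommGroup E] (S : Finset α) (f : α → E)
    (h : ∀ v ∈ S, ∀ w ∈ S, v ≠ w → f v = 0 ∨ f w = 0) :
    ‖∑ v ∈ S, f v‖ ^ 2 = ∑ v ∈ S, ‖f v‖ ^ 2 := by
  by_cases h0 : ∃ v ∈ S, f v ≠ 0
  · obtain ⟨v, hv, hfv⟩ := h0
    have h1 : ∀ w ∈ S, w ≠ v → f w = 0 := fun w hw hne => (h w hw v hv hne).resolve_right hfv
    rw [Finset.sum_eq_single_of_mem v hv h1, Finset.sum_eq_single_of_mem v hv]
    intro w hw hne
    rw [h1 w hw hne]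
    simp
  · push Not at h0
    rw [Finset.sum_eq_zero h0, Finset.sum_eq_zero]
    · simp
    · intro v hv
      rw [h0 v hv]
      simp

theorem AA_tr (b v : V ι) (ψ u : V ι → ℝ) :
    AA b ψ (tr v u) = AA b (fun x => ψ (x + -v)) u := by
  unfold AA
  rw [← integral_add_right_eq_self (fun x => max (fderiv ℝ u x b) 0 *
    (lap (fun x => ψ (x + -v)) x + cc u x * ψ (x + -v))) v]
  congr 1
  funext x
  rw [fderiv_tr, lap_translate, add_neg_cancel_right]
  rfl

theorem AA_neg (b : V ι) {ψ : V ι → ℝ} (hψ : ContDiff ℝ 2 ψ) (u : V ι → ℝ) :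
    AA b (fun x => -ψ x) u = -AA b ψ u := by
  unfold AA
  rw [← integral_neg]
  congr 1
  funext x
  have h := lap_const_mul (-1) hψ x
  have e : (fun y => (-1 : ℝ) * ψ y) = fun x => -ψ x := by
    funext y
    ring
  rw [e] at h
  rw [h]
  ring

theorem lap_zero (x : V ι) : lap (fun _ : V ι => (0 : ℝ)) x = 0 := by
  have h := lap_const_mul (ι := ι) (u := fun _ => (0 : ℝ)) 0 contDiff_const x
  simpa using h

/-- the defect is additive -/
theorem AA_sum {K : ℝ} {u : V ι → ℝ} (hu : GS K u) (b : V ι) {α : Type*} (S : Finset α)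
    (φ : α → V ι → ℝ) (hφ : ∀ v ∈ S, ContDiff ℝ 2 (φ v) ∧ HasCompactSupport (φ v)) :
    ContDiff ℝ 2 (fun x => ∑ v ∈ S, φ v x) ∧ HasCompactSupport (fun x => ∑ v ∈ S, φ v x) ∧
      AA b (fun x => ∑ v ∈ S, φ v x) u = ∑ v ∈ S, AA b (φ v) u := by
  classical
  have hfc : Continuous (fun x => fderiv ℝ u x) := hu.C1.continuous_fderiv one_ne_zero
  have hint : ∀ ψ : V ι → ℝ, ContDiff ℝ 2 ψ → HasCompactSupport ψ →
      Integrable fun x => max (fderiv ℝ u x b) 0 * (lap ψ x + cc u x * ψ x) := by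
    intro ψ h1 h2
    exact integrable_cs (((hfc.clm_apply continuous_const).max continuous_const).mul
      ((continuous_lap h1).add ((continuous_cc hu.C1.continuous).mul h1.continuous)))
      ((HasCompactSupport.intro h2 fun _ hx => b2_lap_zero hx).add
        (h2.mul_left (f := cc u))).mul_left
  induction S using Finset.induction_on with
  | empty =>
    simp only [Finset.sum_empty]
    refine ⟨contDiff_const, HasCompactSupport.zero, ?_⟩
    unfold AA
    simp [lap_zero]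
  | insert a s ha ih =>
    obtain ⟨i1, i2, i3⟩ := ih fun v hv => hφ v (Finset.mem_insert_of_mem hv)
    obtain ⟨j1, j2⟩ := hφ a (Finset.mem_insert_self _ _)
    simp only [Finset.sum_insert ha]
    refine ⟨j1.add i1, j2.add i2, ?_⟩
    rw [← i3]
    unfold AA
    rw [← integral_add (hint _ j1 j2) (hint _ i1 i2)]
    congr 1
    funext x
    rw [lap_add j1 i1]
    ring

/-- the form of a sum of functions with disjoint supports -/
theorem form_le {K : ℝ} {u : V ι → ℝ} (hu : GS K u) {N : ℕ} (S : Finset (V ι))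
    (hS : Helper70.DGL.Sep (2 * (N : ℝ) + 2) S) (φ : V ι → V ι → ℝ) (hφ : ∀ v ∈ S, ContDiff ℝ 2 (φ v))
    (h0 : ∀ v ∈ S, ∀ x, (N : ℝ) ≤ ‖x - v‖ → φ v x = 0) (h1 : ∀ v ∈ S, ∀ x, |φ v x| ≤ N)
    (h2 : ∀ v ∈ S, ∀ x, ‖fderiv ℝ (φ v) x‖ ≤ N) :
    (∫ x, gd (fun x => ∑ v ∈ S, φ v x) (fun x => ∑ v ∈ S, φ v x) x) -
      ∫ x, cc u x * (∑ v ∈ S, φ v x) ^ 2 ≤
    S.card * ((2 + 3 * K ^ 2) * N ^ 2 * volume.real (closedBall (0 : V ι) N)) := by
  -- the derivative vanishes outside of the ball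
  have hd : ∀ v ∈ S, ∀ x, (N : ℝ) < ‖x - v‖ → fderiv ℝ (φ v) x = 0 := by
    intro v hv x hx
    have hev : φ v =ᶠ[𝓝 x] fun _ => (0 : ℝ) := by
      have hopen : {y : V ι | (N : ℝ) < ‖y - v‖} ∈ 𝓝 x :=
        (isOpen_lt continuous_const (continuous_id.sub continuous_const).norm).mem_nhds hx
      filter_upwards [hopen] with y hy
      exact h0 v hv y (le_of_lt hy)
    rw [hev.fderiv_eq]
    simp
  have hcs : ∀ v ∈ S, HasCompactSupport (φ v) := by
    intro v hv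
    refine HasCompactSupport.intro (isCompact_closedBall v N) fun x hx => ?_
    rw [mem_closedBall, dist_eq_norm, not_le] at hx
    exact h0 v hv x hx.le
  have hΨ : ContDiff ℝ 2 (fun x => ∑ v ∈ S, φ v x) ∧
      HasCompactSupport (fun x => ∑ v ∈ S, φ v x) :=
    ⟨(AA_sum hu 0 S φ fun v hv => ⟨hφ v hv, hcs v hv⟩).1,
      (AA_sum hu 0 S φ fun v hv => ⟨hφ v hv, hcs v hv⟩).2.1⟩
  have hC1 : ContDiff ℝ 1 (fun x => ∑ v ∈ S, φ v x) := hΨ.1.of_le (by norm_num)
  set F : V ι → V ι → ℝ := fun v x =>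
    ‖fderiv ℝ (φ v) x‖ ^ 2 + (1 + 3 * K ^ 2) * φ v x ^ 2 with hF
  have hFc : ∀ v ∈ S, Continuous (F v) := by
    intro v hv
    exact (((hφ v hv).continuous_fderiv (by norm_num)).norm.pow 2).add
      (continuous_const.mul ((hφ v hv).continuous.pow 2))
  have hFs : ∀ v ∈ S, ∀ x, x ∉ closedBall v (N : ℝ) → F v x = 0 := by
    intro v hv x hx
    rw [mem_closedBall, dist_eq_norm, not_le] at hx
    simp only [hF]
    rw [hd v hv x hx, h0 v hv x hx.le]
    simp
  have hFi : ∀ v ∈ S, Integrable (F v) := fun v hv =>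
    integrable_cs (hFc v hv) (HasCompactSupport.intro (isCompact_closedBall v N) (hFs v hv))
  have hFb : ∀ v ∈ S, ∫ x, F v x ≤
      (2 + 3 * K ^ 2) * N ^ 2 * volume.real (closedBall (0 : V ι) N) := by
    intro v hv
    rw [← setIntegral_eq_integral_of_forall_compl_eq_zero (hFs v hv)]
    have hvol : volume.real (closedBall v (N : ℝ)) = volume.real (closedBall (0 : V ι) N) := by
      unfold Measure.real
      rw [Measure.addHaar_closedBall_center]
    rw [← hvol]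
    refine (le_abs_self _).trans ?_
    rw [← Real.norm_eq_abs]
    apply norm_setIntegral_le_of_norm_le_const measure_closedBall_lt_top
    intro x _
    rw [Real.norm_eq_abs, abs_of_nonneg (by positivity)]
    have k1 : ‖fderiv ℝ (φ v) x‖ ^ 2 ≤ (N : ℝ) ^ 2 :=
      pow_le_pow_left₀ (norm_nonneg _) (h2 v hv x) 2
    have k2 : φ v x ^ 2 ≤ (N : ℝ) ^ 2 := by
      rw [← sq_abs]
      exact pow_le_pow_left₀ (abs_nonneg _) (h1 v hv x) 2
    have k3 : (1 + 3 * K ^ 2) * φ v x ^ 2 ≤ (1 + 3 * K ^ 2) * (N : ℝ) ^ 2 :=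
      mul_le_mul_of_nonneg_left k2 (by positivity)
    simp only [hF]
    linarith
  -- pointwise
  have hpt : ∀ x, gd (fun x => ∑ v ∈ S, φ v x) (fun x => ∑ v ∈ S, φ v x) x -
      cc u x * (∑ v ∈ S, φ v x) ^ 2 ≤ ∑ v ∈ S, F v x := by
    intro x
    have hsep : ∀ v ∈ S, ∀ w ∈ S, v ≠ w → (N : ℝ) < ‖x - v‖ ∨ (N : ℝ) < ‖x - w‖ := by
      intro v hv w hw hne
      by_contra hcon
      push Not at hcon
      have k1 := hS v hv w hw hne
      have k2 : ‖v - w‖ ≤ ‖x - v‖ + ‖x - w‖ := by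
        have e : v - w = (x - w) - (x - v) := by abel
        rw [e]
        refine (norm_sub_le _ _).trans ?_
        linarith
      linarith [hcon.1, hcon.2]
    have e1 : gd (fun x => ∑ v ∈ S, φ v x) (fun x => ∑ v ∈ S, φ v x) x =
        ∑ v ∈ S, ‖fderiv ℝ (φ v) x‖ ^ 2 := by
      rw [gd_self, fderiv_fun_sum fun v hv => ((hφ v hv).differentiable two_ne_zero) x]
      apply norm_sum_sq
      intro v hv w hw hne
      exact (hsep v hv w hw hne).imp (hd v hv x) (hd w hw x)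
    have e2 : (∑ v ∈ S, φ v x) ^ 2 = ∑ v ∈ S, φ v x ^ 2 := by
      have := norm_sum_sq S (fun v => φ v x) fun v hv w hw hne =>
        (hsep v hv w hw hne).imp (fun h => h0 v hv x h.le) (fun h => h0 w hw x h.le)
      simpa [Real.norm_eq_abs, sq_abs] using this
    have e3 : -(1 + 3 * K ^ 2) ≤ cc u x := by
      have k1 := hu.bdd x
      have k2 : u x ^ 2 ≤ K ^ 2 := by
        rw [← sq_abs]
        exact pow_le_pow_left₀ (abs_nonneg _) k1 2
      unfold cc
      linarith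
    have e4 : 0 ≤ (∑ v ∈ S, φ v x) ^ 2 := sq_nonneg _
    have e5 : -(cc u x) * (∑ v ∈ S, φ v x) ^ 2 ≤ (1 + 3 * K ^ 2) * (∑ v ∈ S, φ v x) ^ 2 :=
      mul_le_mul_of_nonneg_right (by linarith) e4
    have e6 : ∑ v ∈ S, F v x =
        (∑ v ∈ S, ‖fderiv ℝ (φ v) x‖ ^ 2) + (1 + 3 * K ^ 2) * ∑ v ∈ S, φ v x ^ 2 := by
      rw [Finset.mul_sum, ← Finset.sum_add_distrib]
    rw [e6, e1, ← e2]
    linarith
  have hi1 : Integrable (gd (fun x => ∑ v ∈ S, φ v x) (fun x => ∑ v ∈ S, φ v x)) :=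
    integrable_gd hC1 ⟨hC1, hΨ.2⟩
  have hi2 : Integrable fun x => cc u x * (∑ v ∈ S, φ v x) ^ 2 := by
    apply integrable_cs ((continuous_cc hu.C1.continuous).mul (hC1.continuous.pow 2))
    have hs : HasCompactSupport fun x => (∑ v ∈ S, φ v x) ^ 2 :=
      hΨ.2.comp_left (g := fun t : ℝ => t ^ 2) (by norm_num)
    exact hs.mul_left (f := cc u)
  rw [← integral_sub hi1 hi2]
  refine (integral_mono (hi1.sub hi2) (integrable_finsetSum _ hFi) hpt).trans ?_
  rw [integral_finsetSum _ hFi]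
  refine (Finset.sum_le_sum hFb).trans ?_
  rw [Finset.sum_const, nsmul_eq_mul]

/-- the count for one direction -/
theorem count_dir {K : ℝ} {u : V ι → ℝ} (hu : GS K u) (hst : Stab u) {N : ℕ} (b : V ι)
    (S : Finset (V ι)) (hS : Helper70.DGL.Sep (2 * (N : ℝ) + 2) S) (ψ : V ι → V ι → ℝ)
    (hψ : ∀ v ∈ S, TN N (ψ v)) (hA : ∀ v ∈ S, 1 / ((N : ℝ) + 1) < AA b (ψ v) (tr v u))
    (ξ : V ι → ℝ) (hξ : T1 ξ) (h1 : ∀ v ∈ S, ∀ x, ‖x - v‖ ≤ N + 1 → ξ x = 1) :
    (S.card : ℝ) ≤ ((N : ℝ) + 1) ^ 2 * ‖b‖ ^ 2 *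
      ((2 + 3 * K ^ 2) * N ^ 2 * volume.real (closedBall (0 : V ι) N)) *
        ∫ x, gd u u x * gd ξ ξ x := by
  set E : ℝ := ∫ x, gd u u x * gd ξ ξ x with hE
  set C : ℝ := (2 + 3 * K ^ 2) * N ^ 2 * volume.real (closedBall (0 : V ι) N) with hC
  have hE0 : 0 ≤ E := integral_nonneg fun x => mul_nonneg (gd_self_nonneg u x) (gd_self_nonneg ξ x)
  have hC0 : 0 ≤ C := by positivity
  rcases S.card.eq_zero_or_pos with hcard | hcard
  · rw [hcard]
    push_cast
    positivity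
  set φ : V ι → V ι → ℝ := fun v x => ψ v (x + -v) with hφd
  have hφ : ∀ v ∈ S, ContDiff ℝ 2 (φ v) := fun v hv =>
    (hψ v hv).1.comp (contDiff_id.add contDiff_const)
  have h0 : ∀ v ∈ S, ∀ x, (N : ℝ) ≤ ‖x - v‖ → φ v x = 0 := fun v hv x hx =>
    (hψ v hv).2.1 _ (by rw [← sub_eq_add_neg]; exact hx)
  have hb1 : ∀ v ∈ S, ∀ x, |φ v x| ≤ N := fun v hv x => (hψ v hv).2.2.1 _
  have hb2 : ∀ v ∈ S, ∀ x, ‖fderiv ℝ (φ v) x‖ ≤ N := by
    intro v hv x
    have : fderiv ℝ (φ v) x = fderiv ℝ (ψ v) (x + -v) := fderiv_comp_add_right (-v)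
    rw [this]
    exact (hψ v hv).2.2.2 _
  have hcs : ∀ v ∈ S, HasCompactSupport (φ v) := by
    intro v hv
    refine HasCompactSupport.intro (isCompact_closedBall v N) fun x hx => ?_
    rw [mem_closedBall, dist_eq_norm, not_le] at hx
    exact h0 v hv x hx.le
  obtain ⟨k1, k2, k3⟩ := AA_sum hu b S φ fun v hv => ⟨hφ v hv, hcs v hv⟩
  have hform := form_le hu S hS φ hφ h0 hb1 hb2
  set Ψ : V ι → ℝ := fun x => ∑ v ∈ S, φ v x with hΨ
  have hlow : (S.card : ℝ) / (N + 1) ≤ AA b Ψ u := by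
    rw [k3]
    have h3 : ∀ v ∈ S, 1 / ((N : ℝ) + 1) ≤ AA b (φ v) u := by
      intro v hv
      have := hA v hv
      rw [AA_tr] at this
      exact this.le
    have h4 := Finset.card_nsmul_le_sum S (fun v => AA b (φ v) u) _ h3
    rw [nsmul_eq_mul] at h4
    calc (S.card : ℝ) / (N + 1) = S.card * (1 / ((N : ℝ) + 1)) := by ring
      _ ≤ _ := h4
  have hts : ∀ x ∈ tsupport Ψ, ∃ v ∈ S, ‖x - v‖ ≤ N := by
    have hcl : IsClosed (⋃ v ∈ S, closedBall v (N : ℝ)) :=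
      S.finite_toSet.isClosed_biUnion fun v _ => isClosed_closedBall
    have hsub : Function.support Ψ ⊆ ⋃ v ∈ S, closedBall v (N : ℝ) := by
      intro x hx
      by_contra hx'
      apply hx
      simp only [mem_iUnion, mem_closedBall, not_exists, not_le, dist_eq_norm] at hx'
      exact Finset.sum_eq_zero fun v hv => h0 v hv x (hx' v hv).le
    intro x hx
    have := closure_minimal hsub hcl hx
    simp only [mem_iUnion, mem_closedBall, dist_eq_norm] at this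
    obtain ⟨v, hv, h⟩ := this
    exact ⟨v, hv, h⟩
  have e1 : ∀ x ∈ tsupport Ψ, ξ x = 1 := by
    intro x hx
    obtain ⟨v, hv, h⟩ := hts x hx
    exact h1 v hv x (h.trans (by linarith))
  have e2 : ∀ x ∈ tsupport Ψ, fderiv ℝ ξ x = 0 := by
    intro x hx
    obtain ⟨v, hv, h⟩ := hts x hx
    have hev : ξ =ᶠ[𝓝 x] fun _ => (1 : ℝ) := by
      have hopen : {y : V ι | ‖y - v‖ < N + 1} ∈ 𝓝 x := by
        refine (isOpen_lt (continuous_id.sub continuous_const).norm
          continuous_const).mem_nhds ?_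
        show ‖x - v‖ < N + 1
        linarith
      filter_upwards [hopen] with y hy
      exact h1 v hv y (le_of_lt hy)
    rw [hev.fderiv_eq]
    simp
  have hnm := null_min hu hst (hu.lin b) hξ k1 k2 e1 e2
  have hgc : Continuous (gd ξ ξ) := continuous_gd hξ.1 hξ.1
  have hgs : HasCompactSupport (gd ξ ξ) := hasCompactSupport_gd hξ.2
  have hfc : Continuous (fun x => fderiv ℝ u x) := hu.C1.continuous_fderiv one_ne_zero
  have hmono : ∫ x, (fderiv ℝ u x b) ^ 2 * gd ξ ξ x ≤ ‖b‖ ^ 2 * E := by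
    rw [hE, ← integral_const_mul]
    refine integral_mono ?_ ?_ fun x => ?_
    · exact integrable_cs (((hfc.clm_apply continuous_const).pow 2).mul hgc) hgs.mul_left
    · exact (integrable_cs ((continuous_gd hu.C1 hu.C1).mul hgc) hgs.mul_left).const_mul _
    · show (fderiv ℝ u x b) ^ 2 * gd ξ ξ x ≤ ‖b‖ ^ 2 * (gd u u x * gd ξ ξ x)
      rw [← mul_assoc, gd_self u]
      refine mul_le_mul_of_nonneg_right ?_ (gd_self_nonneg ξ x)
      have h3 := (fderiv ℝ u x).le_opNorm b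
      rw [Real.norm_eq_abs] at h3
      have h4 : (fderiv ℝ u x b) ^ 2 ≤ (‖fderiv ℝ u x‖ * ‖b‖) ^ 2 := by
        rw [← sq_abs]
        exact pow_le_pow_left₀ (abs_nonneg _) h3 2
      calc (fderiv ℝ u x b) ^ 2 ≤ (‖fderiv ℝ u x‖ * ‖b‖) ^ 2 := h4
        _ = ‖b‖ ^ 2 * ‖fderiv ℝ u x‖ ^ 2 := by ring
  have hn : (0 : ℝ) < S.card := by exact_mod_cast hcard
  have hN : (0 : ℝ) < (N : ℝ) + 1 := by positivity
  have hfin : ((S.card : ℝ) / (N + 1)) ^ 2 ≤ ‖b‖ ^ 2 * E * (S.card * C) := by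
    calc ((S.card : ℝ) / (N + 1)) ^ 2 ≤ (AA b Ψ u) ^ 2 :=
          pow_le_pow_left₀ (by positivity) hlow 2
      _ ≤ _ := hnm
      _ ≤ (‖b‖ ^ 2 * E) * ((∫ x, gd Ψ Ψ x) - ∫ x, cc u x * Ψ x ^ 2) := by
          apply mul_le_mul_of_nonneg_right hmono
          have := hst Ψ ⟨k1.of_le (by norm_num), k2⟩
          linarith
      _ ≤ _ := mul_le_mul_of_nonneg_left hform (by positivity)
  rw [div_pow, div_le_iff₀ (by positivity)] at hfin
  have h5 : (S.card : ℝ) * S.card ≤ S.card * (((N : ℝ) + 1) ^ 2 * ‖b‖ ^ 2 * C * E) := by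
    calc (S.card : ℝ) * S.card = (S.card : ℝ) ^ 2 := by ring
      _ ≤ _ := hfin
      _ = _ := by ring
  exact le_of_mul_le_mul_left h5 hn

theorem s_FC : S_FC := by
  intro ι _ K N
  classical
  refine ⟨∑ j ∈ Finset.range N, ((N : ℝ) + 1) ^ 2 * ‖dir ι j‖ ^ 2 *
      ((2 + 3 * K ^ 2) * N ^ 2 * volume.real (closedBall (0 : V ι) N)), ?_, ?_⟩
  · exact Finset.sum_nonneg fun j _ => by positivity
  intro u hu hst S hS hbad ξ hξ h1
  have hex : ∀ v ∈ S, ∃ i < N, ∃ ψ : V ι → ℝ, TN N ψ ∧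
      1 / ((N : ℝ) + 1) < AA (dir ι i) ψ (tr v u) := by
    intro v hv
    have h2 := hbad v hv
    unfold SD at h2
    push Not at h2
    obtain ⟨i, hi, ψ, hψ, h3⟩ := h2
    rcases lt_abs.1 h3 with h3 | h3
    · exact ⟨i, hi, ψ, hψ, h3⟩
    · refine ⟨i, hi, fun x => -ψ x, ⟨hψ.1.neg, fun x hx => ?_, fun x => ?_, fun x => ?_⟩, ?_⟩
      · show -ψ x = 0
        rw [hψ.2.1 x hx, neg_zero]
      · show |-ψ x| ≤ N
        rw [abs_neg]
        exact hψ.2.2.1 x
      · rw [fderiv_fun_neg, norm_neg]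
        exact hψ.2.2.2 x
      · rw [AA_neg _ hψ.1]
        exact h3
  choose! i hi ψ hψ hA using hex
  have hcard : S.card = ∑ j ∈ Finset.range N, (S.filter fun v => i v = j).card :=
    Finset.card_eq_sum_card_fiberwise fun v hv => Finset.mem_coe.2 (Finset.mem_range.2 (hi v hv))
  rw [hcard, Finset.sum_mul]
  push_cast
  apply Finset.sum_le_sum
  intro j _
  apply count_dir hu hst (dir ι j) _ _ ψ _ _ ξ hξ
  · intro v hv
    exact h1 v (Finset.mem_filter.1 hv).1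
  · intro v hv w hw
    exact hS v (Finset.mem_filter.1 hv).1 w (Finset.mem_filter.1 hw).1
  · intro v hv
    exact hψ v (Finset.mem_filter.1 hv).1
  · intro v hv
    have h2 := Finset.mem_filter.1 hv
    have h3 := hA v h2.1
    rw [h2.2] at h3
    exact h3

end Pool.Agent.Helper69.DGL
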