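import Pool.Agent.Helper70.DGL.Fr

/-!
# Project DGL (MP_800410_an, De Giorgi), piece LI: limits of planar transitions
-/

set_option autoImplicit false

open MeasureTheory Metric Set Filter Topology
open scoped ContDiff

namespace Pool.Agent.Helper69.DGL

open Pool.Agent.Helper68.DG Pool.Agent.Helper70.DGL

theorem continuousAt_artanh {s : ℝ} (hs : s ∈ Ioo (-1 : ℝ) 1) : ContinuousAt Real.artanh s := by
  have h1 : (1 : ℝ) - s ≠ 0 := by
    have := hs.2
    linarith
  have h2 : (1 + s) / (1 - s) > 0 := div_pos (by linarith [hs.1]) (by linarith [hs.2])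
  have h3 : ContinuousAt (fun x : ℝ => (1 + x) / (1 - x)) s :=
    (continuousAt_const.add continuousAt_id).div (continuousAt_const.sub continuousAt_id) h1
  have h4 : ContinuousAt (fun x : ℝ => √((1 + x) / (1 - x))) s :=
    Real.continuous_sqrt.continuousAt.comp h3
  exact h4.log (Real.sqrt_pos.2 h2).ne'

theorem continuous_tanh : Continuous Real.tanh := by
  have h : Real.tanh = fun x => Real.sinh x / Real.cosh x := by
    funext x
    exact Real.tanh_eq_sinh_div_cosh x
  rw [h]
  exact Real.continuous_sinh.div Real.continuous_cosh fun x => (Real.cosh_pos x).ne'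

/-- Piece LI. -/
theorem s_LI : S_LI := by
  intro ι _ u e hu hpos hNP
  have hδ : ∀ n : ℕ, (0 : ℝ) < 1 / ((n : ℝ) + 1) := fun n => by positivity
  choose a c ha hac using fun n : ℕ => hNP (n : ℝ) (1 / ((n : ℝ) + 1)) (hδ n)
  set θ : ℕ → V ι → ℝ := fun n x => Real.tanh ((inner ℝ (a n) x - c n) / √2) with hθ
  -- pointwise convergence
  have hlim : ∀ x, Tendsto (fun n => θ n x) atTop (𝓝 (u x)) := by
    intro x
    rw [tendsto_iff_dist_tendsto_zero]
    obtain ⟨N, hN⟩ := exists_nat_ge ‖x‖
    refine squeeze_zero' (Eventually.of_forall fun n => dist_nonneg) ?_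
      tendsto_one_div_add_atTop_nhds_zero_nat
    filter_upwards [eventually_ge_atTop N] with n hn
    rw [dist_comm, Real.dist_eq]
    have h1 : ‖x - 0‖ ≤ (n : ℝ) := by
      rw [sub_zero]
      exact hN.trans (by exact_mod_cast hn)
    exact hac n x h1
  have hle : ∀ x, u x ≤ 1 := fun x =>
    le_of_tendsto (hlim x) (Eventually.of_forall fun n => (Real.tanh_lt_one _).le)
  have hge : ∀ x, -1 ≤ u x := fun x =>
    ge_of_tendsto (hlim x) (Eventually.of_forall fun n => (Real.neg_one_lt_tanh _).le)
  -- strict monotonicity along `e`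
  have hmono : ∀ x : V ι, StrictMono fun t : ℝ => u (x + t • e) := by
    intro x
    apply strictMono_of_deriv_pos
    intro t
    have h1 : HasDerivAt (fun t : ℝ => x + t • e) e t := by
      have h2 := ((hasDerivAt_id t).smul_const e).const_add x
      rw [one_smul] at h2
      exact h2
    have h3 := (hu (x + t • e)).hasFDerivAt.comp_hasDerivAt t h1
    have h4 : deriv (fun t : ℝ => u (x + t • e)) t = fderiv ℝ u (x + t • e) e := h3.deriv
    rw [h4]
    exact hpos _
  have h0 : u 0 ∈ Ioo (-1 : ℝ) 1 := by
    constructor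
    · have h1 := hmono 0 (show (-1 : ℝ) < 0 by norm_num)
      simp only [zero_smul, add_zero] at h1
      exact (hge _).trans_lt h1
    · have h1 := hmono 0 (show (0 : ℝ) < 1 by norm_num)
      simp only [zero_smul, add_zero] at h1
      exact h1.trans_le (hle _)
  -- convergence of the constants
  have hs2 : (0 : ℝ) < √2 := by positivity
  have hc : Tendsto c atTop (𝓝 (-(√2 * Real.artanh (u 0)))) := by
    have h1 : Tendsto (fun n => Real.artanh (θ n 0)) atTop (𝓝 (Real.artanh (u 0))) :=
      (continuousAt_artanh h0).tendsto.comp (hlim 0)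
    have h2 : c = fun n => -(√2 * Real.artanh (θ n 0)) := by
      funext n
      rw [hθ]
      simp only
      rw [Real.artanh_tanh, inner_zero_right]
      field_simp
      ring
    rw [h2]
    exact (h1.const_mul _).neg
  -- convergence of the directions
  obtain ⟨b, hb, φ, hφ, hab⟩ := (isCompact_sphere (0 : V ι) 1).tendsto_subseq
    (x := a) fun n => by rw [mem_sphere_zero_iff_norm]; exact ha n
  rw [mem_sphere_zero_iff_norm] at hb
  refine ⟨b, -(√2 * Real.artanh (u 0)), hb, fun x => ?_⟩
  have h1 : Tendsto (fun n => θ (φ n) x) atTop (𝓝 (u x)) := (hlim x).comp hφ.tendsto_atTop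
  have h2 : Tendsto (fun n => θ (φ n) x) atTop
      (𝓝 (Real.tanh ((inner ℝ b x - -(√2 * Real.artanh (u 0))) / √2))) := by
    have h3 : Tendsto (fun n => (inner ℝ (a (φ n)) x - c (φ n)) / √2) atTop
        (𝓝 ((inner ℝ b x - -(√2 * Real.artanh (u 0))) / √2)) :=
      ((hab.inner tendsto_const_nhds).sub (hc.comp hφ.tendsto_atTop)).div_const _
    exact (continuous_tanh.tendsto _).comp h3
  exact tendsto_nhds_unique h1 h2

end Pool.Agent.Helper69.DGL
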