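import Pool.Agent.Helper70.DGL.Fr
import Pool.Agent.Helper68.DG.D2

/-!
# Project DGL (MP_800410_an, De Giorgi), piece TA: the explicit one-dimensional solutions
-/

set_option autoImplicit false

open MeasureTheory Metric Set Filter Topology
open scoped ContDiff

namespace Pool.Agent.Helper69.DGL

open Pool.Agent.Helper68.DG Pool.Agent.Helper70.DGL

/-- the distance of `tanh` to `1` -/
theorem one_sub_tanh (y : ℝ) : 1 - Real.tanh y = 2 / (Real.exp (2 * y) + 1) := by
  have h1 : 0 < Real.exp y := Real.exp_pos y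
  have h2 : Real.exp (-y) = (Real.exp y)⁻¹ := Real.exp_neg y
  have h3 : Real.exp (2 * y) = Real.exp y * Real.exp y := by
    rw [← Real.exp_add]
    congr 1
    ring
  rw [Real.tanh_eq, h2, h3]
  have h4 : Real.exp y + (Real.exp y)⁻¹ ≠ 0 := by positivity
  have h5 : Real.exp y * Real.exp y + 1 ≠ 0 := by positivity
  field_simp
  ring

theorem one_sub_tanh_le {y δ : ℝ} (hδ : 0 < δ) (hy : 1 / δ ≤ y) : |1 - Real.tanh y| ≤ δ := by
  have h0 : 0 < 1 / δ := by positivity
  have h1 : 2 / δ ≤ Real.exp (2 * y) + 1 := by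
    have h2 := Real.add_one_le_exp (2 * y)
    have h3 : 2 / δ = 2 * (1 / δ) := by ring
    rw [h3]
    linarith
  rw [one_sub_tanh, abs_of_pos (by positivity), div_le_iff₀ (by positivity)]
  have h4 : δ * (2 / δ) = 2 := by
    field_simp
  calc (2 : ℝ) = δ * (2 / δ) := h4.symm
    _ ≤ δ * (Real.exp (2 * y) + 1) := mul_le_mul_of_nonneg_left h1 hδ.le

/-- the increasing one-dimensional solutions -/
theorem solve_1d {g : ℝ → ℝ} (hg : ContDiff ℝ 2 g) {M : ℝ} (hM : ∀ t, |g t| ≤ M)
    (hpos : ∀ t, 0 < deriv g t) (heq : ∀ t, deriv (deriv g) t = g t ^ 3 - g t) :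
    ∃ c : ℝ, ∀ t, g t = Real.tanh ((t - c) / √2) := by
  have hs2 : 0 < √(2 : ℝ) := by positivity
  have hd1 : ∀ t, HasDerivAt g (deriv g t) t := fun t =>
    (hg.differentiable (by norm_num) t).hasDerivAt
  have hd2 : ∀ t, HasDerivAt (deriv g) (g t ^ 3 - g t) t := by
    intro t
    rw [← heq t]
    exact (hg.differentiable_deriv_two t).hasDerivAt
  have hone : ∀ c : ℝ, c ^ 3 = c → c ≤ 1 := by
    intro c hc
    by_contra h
    push Not at h
    nlinarith [mul_pos (sub_pos.2 h) (sub_pos.2 h)]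
  -- `|g| < 1`
  obtain ⟨c, hc3, hc⟩ := d1_top hg hM hpos heq
  have hup : ∀ t, g t < 1 := fun t => (hc t).1.trans_le (hone c hc3)
  have hk1 : deriv (fun t => -g (-t)) = fun t => deriv g (-t) := by
    funext t
    have h1 := ((hd1 (-t)).scomp t (hasDerivAt_neg t)).neg
    refine h1.deriv.trans ?_
    simp
  have hk2 : ∀ t, deriv (deriv (fun t => -g (-t))) t = (-g (-t)) ^ 3 - (-g (-t)) := by
    intro t
    rw [hk1]
    have h1 := (hd2 (-t)).scomp t (hasDerivAt_neg t)
    refine h1.deriv.trans ?_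
    rw [smul_eq_mul]
    ring
  obtain ⟨d, hd3, hd⟩ := d1_top (g := fun t => -g (-t)) (hg.comp contDiff_neg).neg (M := M)
    (fun t => by rw [abs_neg]; exact hM _) (fun t => by rw [hk1]; exact hpos _) hk2
  have hlow : ∀ t, -1 < g t := by
    intro t
    have h1 := (hd (-t)).1.trans_le (hone d hd3)
    simp only [neg_neg] at h1
    linarith
  have hD : ∀ t, deriv g t = (1 - g t ^ 2) / √2 := by
    intro t
    have h1 := energy_1d hg hM hpos heq t
    have h2 : 0 < 1 - g t ^ 2 := by nlinarith [hup t, hlow t]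
    have h3 : deriv g t ^ 2 = ((1 - g t ^ 2) / √2) ^ 2 := by
      rw [h1, div_pow, Real.sq_sqrt (by norm_num)]
    exact (pow_left_inj₀ (hpos t).le (by positivity) two_ne_zero).1 h3
  -- the function `artanh g - t / √2` is constant
  set k : ℝ → ℝ := fun t => Real.log (1 + g t) - Real.log (1 - g t) - √2 * t with hk
  have hkd : ∀ t, HasDerivAt k 0 t := by
    intro t
    have h1 : 0 < 1 + g t := by linarith [hlow t]
    have h2 : 0 < 1 - g t := by linarith [hup t]
    have h3 := (((hd1 t).const_add 1).log h1.ne').sub (((hd1 t).const_sub 1).log h2.ne')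
    have h4 := h3.sub ((hasDerivAt_id t).const_mul √2)
    refine h4.congr_deriv ?_
    rw [hD t]
    have h5 : √(2 : ℝ) * √2 = 2 := Real.mul_self_sqrt (by norm_num)
    have h6 : (1 - g t ^ 2) = (1 + g t) * (1 - g t) := by ring
    rw [h6]
    field_simp
    linear_combination (-1 : ℝ) * h5
  have hkc : ∀ t, k t = k 0 := fun t =>
    is_const_of_deriv_eq_zero (fun t => (hkd t).differentiableAt) (fun t => (hkd t).deriv) t 0
  refine ⟨-(k 0 / √2), fun t => ?_⟩
  have h1 : 0 < 1 + g t := by linarith [hlow t]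
  have h2 : 0 < 1 - g t := by linarith [hup t]
  have hm : g t ∈ Ioo (-1 : ℝ) 1 := ⟨hlow t, hup t⟩
  have h3 : Real.artanh (g t) = (t - -(k 0 / √2)) / √2 := by
    rw [Real.artanh_eq_half_log ⟨(hlow t).le, (hup t).le⟩, Real.log_div h1.ne' h2.ne']
    have h4 := hkc t
    have h5 : √(2 : ℝ) * √2 = 2 := Real.mul_self_sqrt (by norm_num)
    have h6 : Real.log (1 + g t) - Real.log (1 - g t) = k 0 + √2 * t := by
      rw [← h4, hk]
      ring
    rw [h6]
    field_simp
    linear_combination (t * √2 + k 0) * h5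
  rw [← h3, Real.tanh_artanh hm]

theorem ta_const {ι : Type} [Fintype ι] {a : V ι} (ha : ‖a‖ = 1) {r δ : ℝ} (hδ : 0 < δ) :
    ∀ x : V ι, ‖x‖ ≤ r → |1 - Real.tanh ((inner ℝ a x - -(√2 / δ + r)) / √2)| ≤ δ := by
  intro x hx
  have hs2 : 0 < √(2 : ℝ) := by positivity
  apply one_sub_tanh_le hδ
  rw [le_div_iff₀ hs2]
  have h1 := abs_real_inner_le_norm a x
  rw [ha, one_mul] at h1
  have h2 := neg_le_of_abs_le h1
  have h3 : 1 / δ * √2 = √2 / δ := by ring
  rw [h3]
  linarith

/-- Piece TA. -/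
theorem s_TA : S_TA := by
  intro ι _ _ K r δ g hv ham hδ
  obtain ⟨a, hb, h | h | h⟩ := ham
  · -- monotone
    have ha0 : a ≠ 0 := by
      rintro rfl
      have := h 0
      simp at this
    have hn : 0 < ‖a‖ := norm_pos_iff.mpr ha0
    set a' : V ι := ‖a‖⁻¹ • a with ha'
    have hna : ‖a'‖ = 1 := by
      rw [ha', norm_smul, norm_inv, norm_norm, inv_mul_cancel₀ hn.ne']
    have hb' : ∀ b : V ι, inner ℝ a' b = 0 → ∀ x, fderiv ℝ g x b = 0 := by
      intro b hbb x
      rw [ha', real_inner_smul_left] at hbb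
      exact hb b ((mul_eq_zero.mp hbb).resolve_left (inv_ne_zero hn.ne')) x
    have hp : ∀ x, 0 < fderiv ℝ g x a' := by
      intro x
      rw [ha', map_smul, smul_eq_mul]
      exact mul_pos (inv_pos.mpr hn) (h x)
    have hdiff : Differentiable ℝ g := hv.C1.differentiable one_ne_zero
    have hD : ContDiff ℝ 1 (fun y => fderiv ℝ g y a') :=
      (hv.smooth.fderiv_right (m := 1) (by norm_num)).clm_apply contDiff_const
    have hline : ∀ t : ℝ, HasDerivAt (fun s : ℝ => s • a') a' t := by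
      intro t
      have h := (hasDerivAt_id t).smul_const a'
      rw [one_smul] at h
      exact h
    set q : ℝ → ℝ := fun t => g (t • a') with hq
    have hqc : ContDiff ℝ 2 q := hv.smooth.comp (contDiff_id.smul contDiff_const)
    have hq1 : ∀ t, HasDerivAt q (fderiv ℝ g (t • a') a') t := fun t =>
      (hdiff (t • a')).hasFDerivAt.comp_hasDerivAt t (hline t)
    have hq1' : deriv q = fun t => fderiv ℝ g (t • a') a' := by
      funext t; exact (hq1 t).deriv
    have hq2 : ∀ t, deriv (deriv q) t = q t ^ 3 - q t := by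
      intro t
      have h1 : HasDerivAt (fun t : ℝ => fderiv ℝ g (t • a') a')
          (fderiv ℝ (fun y => fderiv ℝ g y a') (t • a') a') t := by
        have h2 := ((hD.differentiable one_ne_zero) (t • a')).hasFDerivAt
        exact h2.comp_hasDerivAt t (hline t)
      rw [hq1', h1.deriv, ← d2_lap hv.smooth hna hb', lap_eq hv]
    obtain ⟨c, hc⟩ := solve_1d hqc (M := K) (fun t => hv.bdd _)
      (fun t => by rw [hq1']; exact hp _) hq2
    refine ⟨a', c, hna, fun x _ => ?_⟩
    rw [d2_ridge hdiff hna hb' x]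
    have h1 : g (inner ℝ a' x • a') = Real.tanh ((inner ℝ a' x - c) / √2) := hc (inner ℝ a' x)
    rw [h1, sub_self, abs_zero]
    exact hδ.le
  · obtain ⟨i⟩ := (inferInstance : Nonempty ι)
    refine ⟨be i, -(√2 / δ + r), norm_be i, fun x hx => ?_⟩
    rw [h x]
    exact ta_const (norm_be i) hδ x hx
  · obtain ⟨i⟩ := (inferInstance : Nonempty ι)
    have hn : ‖-be i‖ = 1 := by rw [norm_neg, norm_be i]
    refine ⟨be i, √2 / δ + r, norm_be i, fun x hx => ?_⟩
    rw [h x]
    have h1 := ta_const hn hδ x hx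
    rw [inner_neg_left] at h1
    have h2 : (-inner ℝ (be i) x - -(√2 / δ + r)) / √2 =
        -((inner ℝ (be i) x - (√2 / δ + r)) / √2) := by ring
    rw [h2, Real.tanh_neg] at h1
    rw [← abs_neg]
    have h3 : -(-1 - Real.tanh ((inner ℝ (be i) x - (√2 / δ + r)) / √2)) =
        1 - -Real.tanh ((inner ℝ (be i) x - (√2 / δ + r)) / √2) := by ring
    rw [h3]
    exact h1

end Pool.Agent.Helper69.DGL
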